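import Pool.Agent.H429R4.GC.Main

/-!
# Symmetric circuits, and the circuit for cliques that tries all sets of vertices
-/

namespace Pool.Agent.H429R4.GC

open Finset
open Pool.Agent.H429R4.Sem (Circuit)

variable {W D L : Type}

/-- The permutation `π` of the gates is an automorphism of the circuit that maps every input bit
`(v, w)` to the input bit `(σ v, σ w)`. -/
structure IsAut (C : Circuit (W × W) D L) (σ : Equiv.Perm W) (π : Equiv.Perm C.Gate) : Prop where
  read : ∀ g, C.read (π g) = (C.read g).map (Prod.map σ σ)
  wires : ∀ g, C.wires (π g) = (C.wires g).map fun e => (e.1, π e.2)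
  fn : ∀ g, C.fn (π g) = C.fn g

theorem adj_map (σ : Equiv.Perm W) (G : SimpleGraph W) (e : W × W) :
    adj G (Prod.map σ σ e) = adj (G.comap σ) e := by
  unfold adj
  rw [decide_eq_decide]
  rfl

theorem adj_eq_true {G : SimpleGraph W} {e : W × W} : adj G e = true ↔ G.Adj e.1 e.2 := by
  classical
  unfold adj
  exact decide_eq_true_iff

theorem IsAut.value_eq {C : Circuit (W × W) D L} {σ : Equiv.Perm W} {π : Equiv.Perm C.Gate}
    (h : IsAut C σ π) (g : C.Gate) (G : SimpleGraph W) :
    value adj C (π g) G = value adj C g (G.comap σ) := by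
  induction hr : C.rank g using Nat.strong_induction_on generalizing g with
  | _ r ih =>
    rw [GC.value_eq, GC.value_eq, h.fn, h.read, h.wires, Option.map_map, Multiset.map_map]
    have h1 : adj G ∘ Prod.map σ σ = adj (G.comap σ) := funext fun e => adj_map σ G e
    rw [h1]
    refine congrArg (C.fn g _) (Multiset.map_congr rfl fun e he => ?_)
    exact congrArg (Prod.mk e.1) (ih (C.rank e.2) (by rw [← hr]; exact C.rank_lt g e he) e.2 rfl)

/-- In a circuit that is symmetric under all relabelings the number of wirings is at most the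
number of gates. -/
theorem numWirings_le_size (C : Circuit (W × W) D L)
    (h : ∀ σ : Equiv.Perm W, ∃ π, IsAut C σ π) : numWirings adj C (relabelings W) ≤ C.size := by
  let _ := C.finite
  have h1 : wirings adj C (relabelings W) ⊆ Set.range fun g => view adj C g id := by
    rintro _ ⟨g, f, ⟨σ, rfl⟩, rfl⟩
    obtain ⟨π, hπ⟩ := h σ
    refine ⟨π g, ?_⟩
    simp only [view]
    rw [hπ.read, hπ.wires, Option.map_map, Multiset.map_map]
    simp only [Function.comp_def, id, hπ.value_eq, adj_map]
  have h2 : Nat.card (Set.range fun g => view adj C g id) ≤ Nat.card C.Gate := by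
    have := Set.finite_range fun g => view adj C g id
    exact Nat.card_le_card_of_surjective (Set.rangeFactorization fun g => view adj C g id)
      Set.rangeFactorization_surjective
  refine (Nat.card_mono (Set.finite_range _) h1).trans (h2.trans ?_)
  rw [Nat.card_eq_fintype_card]
  exact le_rfl

section Brute

variable [Fintype W] [DecidableEq W] (k : ℕ)

/-- The pairs of different vertices in `S`. -/
def pairs (S : Finset W) : Finset (W × W) := univ.filter fun e => e.1 ∈ S ∧ e.2 ∈ S ∧ e.1 ≠ e.2

/-- The circuit that checks all sets of `k` vertices. -/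
def brute : Circuit (W × W) Bool Unit where
  Gate := (W × W) ⊕ ({S : Finset W // S.card = k} ⊕ Unit)
  finite := inferInstance
  rank := Sum.elim (fun _ => 0) (Sum.elim (fun _ => 1) fun _ => 2)
  read := Sum.elim some fun _ => none
  wires := Sum.elim (fun _ => 0) (Sum.elim
    (fun S => (pairs S.1).val.map fun e => ((), Sum.inl e))
    fun _ => (univ : Finset {S : Finset W // S.card = k}).val.map fun S =>
      ((), Sum.inr (Sum.inl S)))
  rank_lt := by
    rintro (e | S | u) p hp
    · simp at hp
    · simp only [Sum.elim_inr, Sum.elim_inl, Multiset.mem_map] at hp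
      obtain ⟨e, -, rfl⟩ := hp
      simp
    · simp only [Sum.elim_inr, Multiset.mem_map] at hp
      obtain ⟨S, -, rfl⟩ := hp
      simp
  fn := Sum.elim (fun _ o _ => o.getD false) (Sum.elim
    (fun _ _ m => decide (∀ p ∈ m, p.2 = true))
    fun _ _ m => decide (∃ p ∈ m, p.2 = true))
  out := Sum.inr (Sum.inr ())

/-- The gate that reads a bit. -/
def gEdge (e : W × W) : (brute (W := W) k).Gate := Sum.inl e

/-- The gate of a set. -/
def gSet (S : {S : Finset W // S.card = k}) : (brute (W := W) k).Gate := Sum.inr (Sum.inl S)

/-- The output gate. -/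
def gOut : (brute (W := W) k).Gate := Sum.inr (Sum.inr ())

theorem brute_edge (G : SimpleGraph W) (e : W × W) :
    value adj (brute k) (gEdge k e) G = adj G e := by
  rw [value_eq]
  rfl

theorem brute_set (G : SimpleGraph W) (S : {S : Finset W // S.card = k}) :
    value adj (brute k) (gSet k S) G = true ↔ G.IsClique (S.1 : Set W) := by
  rw [value_eq]
  change decide (∀ p ∈ Multiset.map (fun e : Unit × (brute (W := W) k).Gate =>
    (e.1, value adj (brute k) e.2 G)) ((pairs S.1).val.map fun e => ((), gEdge k e)),
      p.2 = true) = true ↔ _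
  rw [decide_eq_true_eq, Multiset.map_map]
  constructor
  · intro h v hv w hw hvw
    have h1 := h ((), value adj (brute k) (gEdge k (v, w)) G) (by
      rw [Multiset.mem_map]
      refine ⟨(v, w), ?_, rfl⟩
      rw [mem_val]
      unfold pairs
      rw [mem_filter]
      exact ⟨mem_univ _, hv, hw, hvw⟩)
    rw [brute_edge] at h1
    exact adj_eq_true.1 h1
  · intro h p hp
    rw [Multiset.mem_map] at hp
    obtain ⟨e, he, rfl⟩ := hp
    rw [mem_val] at he
    unfold pairs at he
    rw [mem_filter] at he
    change value adj (brute k) (gEdge k e) G = true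
    rw [brute_edge]
    exact adj_eq_true.2 (h he.2.1 he.2.2.1 he.2.2.2)

theorem brute_output (G : SimpleGraph W) :
    (brute k).output (adj G) = true ↔ ¬ G.CliqueFree k := by
  change value adj (brute k) (gOut k) G = true ↔ _
  rw [value_eq]
  change decide (∃ p ∈ Multiset.map (fun e : Unit × (brute (W := W) k).Gate =>
    (e.1, value adj (brute k) e.2 G)) ((univ : Finset {S : Finset W // S.card = k}).val.map
      fun S => ((), gSet k S)), p.2 = true) = true ↔ _
  rw [decide_eq_true_eq, Multiset.map_map]
  constructor
  · rintro ⟨p, hp, h⟩ hfree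
    rw [Multiset.mem_map] at hp
    obtain ⟨S, -, rfl⟩ := hp
    exact hfree S.1 ⟨(brute_set k G S).1 h, S.2⟩
  · intro h
    unfold SimpleGraph.CliqueFree at h
    push Not at h
    obtain ⟨S, hS⟩ := h
    refine ⟨((), value adj (brute k) (gSet k ⟨S, hS.card_eq⟩) G), ?_,
      (brute_set k G ⟨S, hS.card_eq⟩).2 hS.isClique⟩
    rw [Multiset.mem_map]
    exact ⟨⟨S, hS.card_eq⟩, mem_univ _, rfl⟩

/-- The action of a relabeling on the sets of `k` vertices. -/
def setPerm (σ : Equiv.Perm W) : Equiv.Perm {S : Finset W // S.card = k} :=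
  (Equiv.finsetCongr σ).subtypeEquiv fun S => by
    rw [Equiv.finsetCongr_apply, card_map]

theorem brute_aut (σ : Equiv.Perm W) : ∃ π, IsAut (brute (W := W) k) σ π := by
  refine ⟨Equiv.sumCongr (Equiv.prodCongr σ σ) (Equiv.sumCongr (setPerm k σ) (Equiv.refl Unit)),
    ⟨?_, ?_, ?_⟩⟩
  · rintro (e | S | u)
    · rfl
    · rfl
    · rfl
  · rintro (e | S | u)
    · rfl
    · change (pairs ((S.1).map σ.toEmbedding)).val.map _ = Multiset.map _ ((pairs S.1).val.map _)
      have h1 : pairs ((S.1).map σ.toEmbedding) =
          (pairs S.1).map (Equiv.prodCongr σ σ).toEmbedding := by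
        ext e
        unfold pairs
        simp only [mem_filter, mem_univ, true_and, mem_map_equiv, Equiv.prodCongr_symm,
          Equiv.prodCongr_apply, Prod.map_fst, Prod.map_snd, ne_eq, EmbeddingLike.apply_eq_iff_eq]
      rw [h1, map_val]
      refine (Multiset.map_map _ _ _).trans (Eq.trans ?_ (Multiset.map_map _ _ _).symm)
      rfl
    · change (univ : Finset {S : Finset W // S.card = k}).val.map _ =
        Multiset.map _ ((univ : Finset {S : Finset W // S.card = k}).val.map _)
      conv_lhs => rw [← map_univ_equiv (setPerm k σ)]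
      rw [map_val]
      refine (Multiset.map_map _ _ _).trans (Eq.trans ?_ (Multiset.map_map _ _ _).symm)
      rfl
  · rintro (e | S | u)
    · rfl
    · rfl
    · rfl

theorem numWirings_brute :
    numWirings adj (brute (W := W) k) (relabelings W) ≤
      Fintype.card W ^ 2 + (Fintype.card W).choose k + 1 := by
  refine (numWirings_le_size _ (brute_aut k)).trans (le_of_eq ?_)
  change Fintype.card ((W × W) ⊕ ({S : Finset W // S.card = k} ⊕ Unit)) = _
  rw [Fintype.card_sum, Fintype.card_sum, Fintype.card_prod, Fintype.card_finset_len,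
    Fintype.card_unit]
  ring

end Brute

end Pool.Agent.H429R4.GC
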