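import Pool.Agent.H429R4.GC.Blocks

/-!
# Circuits with few wirings accept equally many relabelings
-/

namespace Pool.Agent.H429R4.GC

open Matrix Finset
open Pool.Agent.H429R4.Sem (Circuit)

variable {X B D L W : Type} {k r n : ℕ} {act : Equiv.Perm W → X → X}

theorem push_add {E : Type} (y : E → Fin 3 → Fin n) (u u' : Fin 3 × Fin n → ZMod 2) :
    push y (u + u') = push y u + push y u' := rfl

theorem push_zero {E : Type} (y : E → Fin 3 → Fin n) : push y 0 = 0 := rfl

theorem isAction_push (hact : IsRight act) (φ : Vert k r ↪ W) (y : Fin k × Fin r → Fin 3 → Fin n) :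
    IsAction fun (u : Fin 3 × Fin n → ZMod 2) (x : X) => act (ext φ (tr (push y u))) x where
  zero x := by
    rw [push_zero, tr_zero, map_one, hact.one]
  add u u' x := by
    rw [push_add, add_comm, tr_add, map_mul, hact.mul]

theorem exists_shift_relabeled (hact : IsRight act) (enc : X → B → Bool)
    (C : Circuit B D L) (φ : Vert k r ↪ W) {y : Fin k × Fin r → Fin 3 → Fin n} {t q : ℕ}
    (hy : Good t q y) (ht : 1 < t) (ins : (Fin k × Fin r → ZMod 2) → X)
    (hins : ∀ u b, act (ext φ (tr (push y u))) (ins b) = ins (b + mat y *ᵥ u))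
    (hB : ∀ σ : Equiv.Perm W, ∃ s : B → B, ∀ x β, enc (act σ x) β = enc x (s β))
    (hloc : ∀ β b τ, (∀ j, τ j ≠ 0 → ∃ u, (∀ x, enc (act (ext φ (tr (push y u))) x) β = enc x β) ∧
        (mat y *ᵥ u) j ≠ 0) → enc (ins (b + τ)) β = enc (ins b) β)
    (hvis : ∀ w ∈ visible (isAction_pre (D := D) (L := L) φ hact)
      (wirings enc C (Set.range act)), (supp w).card ≤ q)
    (b b' : Fin k × Fin r → ZMod 2) (σ : Equiv.Perm W) :
    ∃ u₀ : Fin 3 × Fin n → ZMod 2, ∀ u,
      C.output (enc (act σ (act (ext φ (tr (push y (u + u₀)))) (ins b)))) =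
      C.output (enc (act σ (act (ext φ (tr (push y u))) (ins b')))) := by
  classical
  obtain ⟨s, hs⟩ := hB σ
  refine exists_shift_output (isAction_push hact φ y) (fun x => enc (act σ x)) C (mat y) ins hins
    ht ?_ ?_ ?_ b b'
  · intro β b₁ τ hτ
    simp only [hs] at hτ ⊢
    exact hloc (s β) b₁ τ hτ
  · intro g x hx1 hx2
    by_contra hcon
    push Not at hcon
    set ξ := view enc C g (act σ) with hξ
    have h1 : ∀ u, push y u ∈ stab (isAction_pre (D := D) (L := L) φ hact) ξ →
        (x ᵥ* mat y) ⬝ᵥ u = 0 := by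
      intro u hu
      refine hcon u ?_
      rw [mem_vfixer]
      rw [mem_stab] at hu
      have h2 : view (fun x => enc (act σ x)) C g
          (fun x => act (ext φ (tr (push y u))) x) =
          pre (fun x => act (ext φ (tr (push y u))) x) (view enc C g (act σ)) := by
        rw [pre_view]
        rfl
      have h3 : view (fun x => enc (act σ x)) C g id = view enc C g (act σ) := rfl
      rw [h2, h3]
      exact hu
    obtain ⟨w, hw1, hw2⟩ := exists_pull h1
    have hwv : w ∈ visible (isAction_pre (D := D) (L := L) φ hact)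
        (wirings enc C (Set.range act)) := by
      rw [mem_visible]
      exact ⟨ξ, ⟨g, act σ, ⟨σ, rfl⟩, rfl⟩, hw1⟩
    refine hy.2 x hx1 hx2 w (hvis w hwv) ?_
    rw [pull_add, hw2, vecMul_mat]
    exact add_self' _
  · intro x hx0 hxt h0
    rw [vecMul_mat] at h0
    exact hy.1 x hx0 hxt h0

/-- Circuits with few wirings accept equally many relabelings of all the inputs `ins b`. -/
theorem count_eq [Fintype W] [DecidableEq W] (hact : IsRight act) (enc : X → B → Bool)
    (C : Circuit B D L) (φ : Vert k r ↪ W) {y : Fin k × Fin r → Fin 3 → Fin n} {t q : ℕ}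
    (hy : Good t q y) (ht : 1 < t) (ins : (Fin k × Fin r → ZMod 2) → X)
    (hins : ∀ u b, act (ext φ (tr (push y u))) (ins b) = ins (b + mat y *ᵥ u))
    (hB : ∀ σ : Equiv.Perm W, ∃ s : B → B, ∀ x β, enc (act σ x) β = enc x (s β))
    (hloc : ∀ β b τ, (∀ j, τ j ≠ 0 → ∃ u, (∀ x, enc (act (ext φ (tr (push y u))) x) β = enc x β) ∧
        (mat y *ᵥ u) j ≠ 0) → enc (ins (b + τ)) β = enc (ins b) β)
    (hvis : ∀ w ∈ visible (isAction_pre (D := D) (L := L) φ hact)
      (wirings enc C (Set.range act)), (supp w).card ≤ q)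
    (b b' : Fin k × Fin r → ZMod 2) (d : D) :
    Nat.card {σ : Equiv.Perm W // C.output (enc (act σ (ins b))) = d} =
      Nat.card {σ : Equiv.Perm W // C.output (enc (act σ (ins b'))) = d} := by
  classical
  choose u₀ hu₀ using fun σ => exists_shift_relabeled hact enc C φ hy ht ins hins hB hloc hvis b b' σ
  let f : (Fin k × Fin r → ZMod 2) → Equiv.Perm W → ℕ := fun b σ =>
    if C.output (enc (act σ (ins b))) = d then 1 else 0
  let π : (Fin 3 × Fin n → ZMod 2) → Equiv.Perm W := fun u => ext φ (tr (push y u))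
  have hcard : ∀ b, Nat.card {σ : Equiv.Perm W // C.output (enc (act σ (ins b))) = d} =
      ∑ σ, f b σ := by
    intro b
    rw [Nat.card_eq_fintype_card, Fintype.card_subtype, card_filter]
  have hav : ∀ b, Fintype.card (Fin 3 × Fin n → ZMod 2) * ∑ σ, f b σ =
      ∑ σ, ∑ u, f b (π u * σ) := by
    intro b
    rw [sum_comm, ← smul_eq_mul, ← card_univ, ← sum_const]
    refine sum_congr rfl fun u _ => ?_
    exact (Equiv.sum_comp (Equiv.mulLeft (π u)) (f b)).symm
  have hfe : ∀ σ u, f b (π (u + u₀ σ) * σ) = f b' (π u * σ) := by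
    intro σ u
    simp only [f]
    rw [hact.mul, hact.mul, hu₀ σ u]
  have hmain : ∑ σ, ∑ u, f b (π u * σ) = ∑ σ, ∑ u, f b' (π u * σ) := by
    refine sum_congr rfl fun σ _ => ?_
    rw [← Equiv.sum_comp (Equiv.addRight (u₀ σ)) fun u => f b (π u * σ)]
    exact sum_congr rfl fun u _ => hfe σ u
  rw [← hav, ← hav] at hmain
  rw [hcard, hcard]
  exact Nat.eq_of_mul_eq_mul_left Fintype.card_pos hmain

end Pool.Agent.H429R4.GC
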