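import Pool.Agent.H429R4.GC.Fair

/-!
# The graphs of systems of equations
-/

namespace Pool.Agent.H429R4.GC

open Matrix Finset
open Pool.Agent.H429R4.Sem (Circuit)

variable {W : Type} {k r n : ℕ}

/-- The assignment of the vertex satisfies the equations of its block. -/
def Sat (b : Fin k × Fin r → ZMod 2) (v : Vert k r) : Prop := ∀ l, ∑ a, v.2 (l, a) = b (v.1, l)

/-- The assignments of the two vertices agree on common letters. -/
def Agree (y : Fin k × Fin r → Fin 3 → Fin n) (v v' : Vert k r) : Prop :=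
  ∀ l l' a, y (v.1, l) a = y (v'.1, l') a → v.2 (l, a) = v'.2 (l', a)

/-- Two vertices are adjacent if they belong to different blocks, satisfy their equations, and
agree. -/
def gv (y : Fin k × Fin r → Fin 3 → Fin n) (b : Fin k × Fin r → ZMod 2) :
    SimpleGraph (Vert k r) where
  Adj v v' := v.1 ≠ v'.1 ∧ (Sat b v ∧ Sat b v') ∧ (Agree y v v ∧ Agree y v' v') ∧
    (Agree y v v' ∧ Agree y v' v)
  symm.symm _ _ h := ⟨fun e => h.1 e.symm, ⟨h.2.1.2, h.2.1.1⟩, ⟨h.2.2.1.2, h.2.2.1.1⟩,
    ⟨h.2.2.2.2, h.2.2.2.1⟩⟩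
  loopless.irrefl _ h := h.1 rfl

theorem gv_adj {y : Fin k × Fin r → Fin 3 → Fin n} {b : Fin k × Fin r → ZMod 2}
    {v v' : Vert k r} : (gv y b).Adj v v' ↔ v.1 ≠ v'.1 ∧ (Sat b v ∧ Sat b v') ∧
      (Agree y v v ∧ Agree y v' v') ∧ (Agree y v v' ∧ Agree y v' v) := Iff.rfl

theorem sat_tr (y : Fin k × Fin r → Fin 3 → Fin n) (b : Fin k × Fin r → ZMod 2)
    (u : Fin 3 × Fin n → ZMod 2) (v : Vert k r) :
    Sat b (tr (push y u) v) ↔ Sat (b + mat y *ᵥ u) v := by
  unfold Sat
  refine forall_congr' fun l => ?_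
  rw [tr_apply, Pi.add_apply, mat_mulVec]
  change ∑ a, (v.2 (l, a) + u (a, y (v.1, l) a)) = b (v.1, l) ↔ _
  rw [sum_add_distrib]
  generalize ∑ a, v.2 (l, a) = c1
  generalize ∑ a, u (a, y (v.1, l) a) = c2
  generalize b (v.1, l) = c3
  revert c1 c2 c3
  decide

theorem agree_tr (y : Fin k × Fin r → Fin 3 → Fin n)
    (u : Fin 3 × Fin n → ZMod 2) (v v' : Vert k r) :
    Agree y (tr (push y u) v) (tr (push y u) v') ↔ Agree y v v' := by
  unfold Agree
  refine forall_congr' fun l => forall_congr' fun l' => forall_congr' fun a => ?_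
  rw [tr_apply, tr_apply]
  change (y (v.1, l) a = y (v'.1, l') a →
    v.2 (l, a) + u (a, y (v.1, l) a) = v'.2 (l', a) + u (a, y (v'.1, l') a)) ↔ _
  refine imp_congr_right fun h => ?_
  rw [h]
  exact add_left_inj _

theorem gv_tr (y : Fin k × Fin r → Fin 3 → Fin n) (b : Fin k × Fin r → ZMod 2)
    (u : Fin 3 × Fin n → ZMod 2) (v v' : Vert k r) :
    (gv y b).Adj (tr (push y u) v) (tr (push y u) v') ↔ (gv y (b + mat y *ᵥ u)).Adj v v' := by
  rw [gv_adj, gv_adj, sat_tr, sat_tr, agree_tr, agree_tr, agree_tr, agree_tr]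
  rfl

/-- The graph on `W`. -/
def gr (φ : Vert k r ↪ W) (y : Fin k × Fin r → Fin 3 → Fin n) (b : Fin k × Fin r → ZMod 2) :
    SimpleGraph W := (gv y b).map φ

theorem gr_adj {φ : Vert k r ↪ W} {y : Fin k × Fin r → Fin 3 → Fin n}
    {b : Fin k × Fin r → ZMod 2} {p q : W} :
    (gr φ y b).Adj p q ↔ ∃ v v', (gv y b).Adj v v' ∧ φ v = p ∧ φ v' = q := by
  unfold gr
  rw [SimpleGraph.map_adj]

theorem tr_tr (z : Pl k r → ZMod 2) : tr z * tr z = 1 := by
  rw [← tr_add, add_self', tr_zero]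

theorem ext_tr_involutive (φ : Vert k r ↪ W) (z : Pl k r → ZMod 2) (p : W) :
    ext φ (tr z) (ext φ (tr z) p) = p := by
  rw [← Equiv.Perm.mul_apply, ← map_mul, tr_tr, map_one, Equiv.Perm.one_apply]

theorem gr_comap (φ : Vert k r ↪ W) (y : Fin k × Fin r → Fin 3 → Fin n)
    (u : Fin 3 × Fin n → ZMod 2) (b : Fin k × Fin r → ZMod 2) :
    (gr φ y b).comap (ext φ (tr (push y u))) = gr φ y (b + mat y *ᵥ u) := by
  ext p q
  rw [SimpleGraph.comap_adj, gr_adj, gr_adj]
  constructor
  · rintro ⟨v, v', h, h1, h2⟩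
    refine ⟨tr (push y u) v, tr (push y u) v', ?_, ?_, ?_⟩
    · rw [← gv_tr, ← Equiv.Perm.mul_apply, ← Equiv.Perm.mul_apply, tr_tr]
      exact h
    · rw [← ext_apply, h1, ext_tr_involutive]
    · rw [← ext_apply, h2, ext_tr_involutive]
  · rintro ⟨v, v', h, rfl, rfl⟩
    refine ⟨tr (push y u) v, tr (push y u) v', ?_, ?_, ?_⟩
    · rw [gv_tr]
      exact h
    · rw [ext_apply]
    · rw [ext_apply]

theorem not_cliqueFree_zero (φ : Vert k r ↪ W) (y : Fin k × Fin r → Fin 3 → Fin n) :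
    ¬ (gr φ y 0).CliqueFree k := by
  classical
  intro h
  let f : Fin k ↪ W := ⟨fun i => φ (i, 0), fun i j e => by
    have := φ.injective e
    exact (Prod.mk.inj this).1⟩
  refine h (univ.map f) ⟨?_, ?_⟩
  · intro p hp q hq hpq
    rw [mem_coe, mem_map] at hp hq
    obtain ⟨i, -, rfl⟩ := hp
    obtain ⟨j, -, rfl⟩ := hq
    rw [gr_adj]
    refine ⟨(i, 0), (j, 0), ?_, rfl, rfl⟩
    have hij : i ≠ j := fun e => hpq (congrArg f e)
    refine ⟨hij, ⟨?_, ?_⟩, ⟨?_, ?_⟩, ?_, ?_⟩
    · intro l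
      simp
    · intro l
      simp
    · intro l l' a _
      rfl
    · intro l l' a _
      rfl
    · intro l l' a _
      rfl
    · intro l l' a _
      rfl
  · rw [card_map, card_univ, Fintype.card_fin]

/-- The number of right-hand sides that agree with a given one on a set of blocks. -/
theorem card_agree_le (c : Fin k × Fin r → ZMod 2) (T : Finset (Fin k)) :
    (univ.filter fun b : Fin k × Fin r → ZMod 2 => ∀ i ∈ T, ∀ l, c (i, l) = b (i, l)).card ≤
      2 ^ (r * (k - T.card)) := by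
  classical
  have h1 : (univ : Finset ((Tᶜ : Finset (Fin k)) × Fin r → ZMod 2)).card =
      2 ^ (r * (k - T.card)) := by
    rw [card_univ, Fintype.card_fun, ZMod.card, Fintype.card_prod, Fintype.card_coe,
      card_compl, Fintype.card_fin, Fintype.card_fin]
    congr 1
    ring
  rw [← h1]
  refine card_le_card_of_injOn (fun b p => b (p.1.1, p.2)) (fun _ _ => mem_univ _) ?_
  intro b hb b' hb' e
  rw [mem_coe, mem_filter] at hb hb'
  funext ⟨i, l⟩
  by_cases hi : i ∈ T
  · rw [← hb.2 i hi l, ← hb'.2 i hi l]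
  · exact congrFun e (⟨i, mem_compl.2 hi⟩, l)

/-- There are right-hand sides for which no assignment satisfies all the equations of many
blocks. -/
theorem exists_far_blocks (y : Fin k × Fin r → Fin 3 → Fin n) {q : ℕ} (hq : 3 * n + k < r * q) :
    ∃ b : Fin k × Fin r → ZMod 2, ∀ u : Fin 3 × Fin n → ZMod 2,
      (univ.filter fun i : Fin k => ∀ l, (mat y *ᵥ u) (i, l) = b (i, l)).card < q := by
  classical
  by_contra hcon
  push Not at hcon
  have hqk : q ≤ k := by
    obtain ⟨u, hu⟩ := hcon 0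
    refine hu.trans ((card_le_univ _).trans ?_)
    rw [Fintype.card_fin]
  have hall : (univ : Finset (Fin k × Fin r → ZMod 2)) ⊆
      univ.biUnion fun u : Fin 3 × Fin n → ZMod 2 =>
        ((univ : Finset (Fin k)).powerset.filter fun T => q ≤ T.card).biUnion fun T =>
          univ.filter fun b => ∀ i ∈ T, ∀ l, (mat y *ᵥ u) (i, l) = b (i, l) := by
    intro b _
    obtain ⟨u, hu⟩ := hcon b
    rw [mem_biUnion]
    refine ⟨u, mem_univ _, ?_⟩
    rw [mem_biUnion]
    refine ⟨univ.filter fun i : Fin k => ∀ l, (mat y *ᵥ u) (i, l) = b (i, l), ?_, ?_⟩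
    · rw [mem_filter, mem_powerset]
      exact ⟨subset_univ _, hu⟩
    · rw [mem_filter]
      refine ⟨mem_univ _, fun i hi => ?_⟩
      rw [mem_filter] at hi
      exact hi.2
  have hle := (card_le_card hall).trans card_biUnion_le
  have h1 : ∀ u : Fin 3 × Fin n → ZMod 2,
      (((univ : Finset (Fin k)).powerset.filter fun T => q ≤ T.card).biUnion fun T =>
          univ.filter fun b : Fin k × Fin r → ZMod 2 =>
            ∀ i ∈ T, ∀ l, (mat y *ᵥ u) (i, l) = b (i, l)).card ≤
        2 ^ k * 2 ^ (r * (k - q)) := by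
    intro u
    refine card_biUnion_le.trans ?_
    refine (sum_le_sum (g := fun _ => 2 ^ (r * (k - q))) fun T hT => ?_).trans ?_
    · rw [mem_filter] at hT
      refine (card_agree_le _ T).trans (Nat.pow_le_pow_right (by norm_num) ?_)
      exact Nat.mul_le_mul_left r (Nat.sub_le_sub_left hT.2 k)
    · rw [sum_const, smul_eq_mul]
      refine Nat.mul_le_mul_right _ ?_
      refine (card_le_card (filter_subset _ _)).trans ?_
      rw [card_powerset, card_univ, Fintype.card_fin]
  have h2 := hle.trans (sum_le_sum fun u _ => h1 u)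
  rw [sum_const, card_univ, card_univ, Fintype.card_fun, Fintype.card_fun, ZMod.card,
    Fintype.card_prod, Fintype.card_prod, Fintype.card_fin, Fintype.card_fin, Fintype.card_fin,
    Fintype.card_fin, smul_eq_mul, ← pow_add, ← pow_add] at h2
  have h3 := (Nat.pow_le_pow_iff_right (by norm_num : 1 < 2)).1 h2
  have h4 : r * q ≤ k * r := by
    rw [mul_comm k r]
    exact Nat.mul_le_mul_left r hqk
  have h5 : r * (k - q) = k * r - r * q := by
    rw [Nat.mul_sub, mul_comm r k]
  rw [h5] at h3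
  omega

/-- A large clique gives an assignment that satisfies all the equations of many blocks. -/
theorem cliqueFree_of_far (φ : Vert k r ↪ W) (y : Fin k × Fin r → Fin 3 → Fin n)
    (b : Fin k × Fin r → ZMod 2) {q : ℕ} (hq2 : 2 ≤ q)
    (hb : ∀ u : Fin 3 × Fin n → ZMod 2,
      (univ.filter fun i : Fin k => ∀ l, (mat y *ᵥ u) (i, l) = b (i, l)).card < q) :
    (gr φ y b).CliqueFree q := by
  classical
  rintro S ⟨hS, hcard⟩
  have hex : ∀ p ∈ S, ∃ v v' : Vert k r, φ v = p ∧ (gv y b).Adj v v' := by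
    intro p hp
    have h1 : ∃ p' ∈ S, p' ≠ p := by
      refine exists_mem_ne ?_ p
      omega
    obtain ⟨p', hp', hne⟩ := h1
    have h2 := hS (mem_coe.2 hp) (mem_coe.2 hp') hne.symm
    rw [gr_adj] at h2
    obtain ⟨v, v', h3, h4, h5⟩ := h2
    exact ⟨v, v', h4, h3⟩
  let S' : Finset (Vert k r) := univ.filter fun v => φ v ∈ S
  have hS'card : q ≤ S'.card := by
    rw [← hcard, ← card_map φ (s := S')]
    refine card_le_card fun p hp => ?_
    obtain ⟨v, v', h1, h2⟩ := hex p hp
    rw [mem_map]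
    refine ⟨v, ?_, h1⟩
    rw [mem_filter]
    refine ⟨mem_univ _, ?_⟩
    rw [h1]
    exact hp
  have hmem : ∀ v ∈ S', Sat b v ∧ Agree y v v := by
    intro v hv
    rw [mem_filter] at hv
    obtain ⟨v₁, v', h1, h2⟩ := hex _ hv.2
    have h3 := φ.injective h1
    subst h3
    exact ⟨h2.2.1.1, h2.2.2.1.1⟩
  have hpair : ∀ v ∈ S', ∀ v' ∈ S', v ≠ v' → (gv y b).Adj v v' := by
    intro v hv v' hv' hne
    rw [mem_filter] at hv hv'
    have h2 := hS (mem_coe.2 hv.2) (mem_coe.2 hv'.2) fun e => hne (φ.injective e)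
    rw [gr_adj] at h2
    obtain ⟨v₁, v₁', h3, h4, h5⟩ := h2
    have e1 := φ.injective h4
    have e2 := φ.injective h5
    rwa [e1, e2] at h3
  have hagree : ∀ v ∈ S', ∀ v' ∈ S', Agree y v v' := by
    intro v hv v' hv'
    by_cases h : v = v'
    · rw [← h]
      exact (hmem v hv).2
    · exact (hpair v hv v' hv' h).2.2.2.1
  let u : Fin 3 × Fin n → ZMod 2 := fun p =>
    if h : ∃ v ∈ S', ∃ l, y (v.1, l) p.1 = p.2 then
      (Classical.choose h).2 (Classical.choose (Classical.choose_spec h).2, p.1) else 0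
  have hu : ∀ v ∈ S', ∀ l a, u (a, y (v.1, l) a) = v.2 (l, a) := by
    intro v hv l a
    have h : ∃ v' ∈ S', ∃ l', y (v'.1, l') a = y (v.1, l) a := ⟨v, hv, l, rfl⟩
    change (if h : ∃ v' ∈ S', ∃ l', y (v'.1, l') a = y (v.1, l) a then
      (Classical.choose h).2 (Classical.choose (Classical.choose_spec h).2, a) else 0) = _
    rw [dif_pos h]
    exact hagree _ (Classical.choose_spec h).1 v hv _ _ _
      (Classical.choose_spec (Classical.choose_spec h).2)
  have hinj : Set.InjOn (Prod.fst : Vert k r → Fin k) S' := by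
    intro v hv v' hv' e
    by_contra hne
    exact (hpair v hv v' hv' hne).1 e
  have h6 : S'.image Prod.fst ⊆
      univ.filter fun i : Fin k => ∀ l, (mat y *ᵥ u) (i, l) = b (i, l) := by
    intro i hi
    rw [mem_image] at hi
    obtain ⟨v, hv, rfl⟩ := hi
    rw [mem_filter]
    refine ⟨mem_univ _, fun l => ?_⟩
    rw [mat_mulVec, ← (hmem v hv).1 l]
    exact sum_congr rfl fun a _ => hu v hv l a
  have h7 := card_le_card h6
  rw [card_image_of_injOn hinj] at h7
  have h8 := hb u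
  omega

end Pool.Agent.H429R4.GC
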