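import Pool.Agent.H429R4.GC.Main

/-!
# Circuits with few wirings cannot decide graph isomorphism
-/

namespace Pool.Agent.H429R4.GC

open Matrix Finset
open Pool.Agent.H429R4.Sem (Circuit)

variable {W : Type} {k r n : ℕ}

/-- The adjacency matrices of two graphs, as input bits. -/
noncomputable def adjPair (x : SimpleGraph W × SimpleGraph W) : (W × W) ⊕ (W × W) → Bool :=
  Sum.elim (adj x.1) (adj x.2)

/-- The relabelings of the first graph of a pair. -/
def firstRelabelings (W : Type) : Set (SimpleGraph W × SimpleGraph W →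
    SimpleGraph W × SimpleGraph W) :=
  Set.range fun (σ : Equiv.Perm W) (x : SimpleGraph W × SimpleGraph W) => (x.1.comap σ, x.2)

theorem isRight_pair : IsRight fun (π : Equiv.Perm W) (x : SimpleGraph W × SimpleGraph W) =>
    (x.1.comap π, x.2) where
  one x := Prod.ext (isRight_comap.one x.1) rfl
  mul π π' x := Prod.ext (isRight_comap.mul π π' x.1) rfl

theorem adjPair_comap (σ : Equiv.Perm W) :
    ∃ s : (W × W) ⊕ (W × W) → (W × W) ⊕ (W × W),
      ∀ (x : SimpleGraph W × SimpleGraph W) β,
        adjPair (x.1.comap σ, x.2) β = adjPair x (s β) := by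
  obtain ⟨s, hs⟩ := adj_comap σ
  refine ⟨Sum.map s id, fun x β => ?_⟩
  rcases β with β | β
  · exact hs x.1 β
  · rfl

theorem pair_local (φ : Vert k r ↪ W) (y : Fin k × Fin r → Fin 3 → Fin n)
    (F : SimpleGraph W) (β : (W × W) ⊕ (W × W)) (b τ : Fin k × Fin r → ZMod 2)
    (h : ∀ j, τ j ≠ 0 → ∃ u, (∀ x : SimpleGraph W × SimpleGraph W,
      adjPair (x.1.comap (ext φ (tr (push y u))), x.2) β = adjPair x β) ∧ (mat y *ᵥ u) j ≠ 0) :
    adjPair (gr φ y (b + τ), F) β = adjPair (gr φ y b, F) β := by
  rcases β with β | β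
  · refine gr_local φ y β b τ fun j hj => ?_
    obtain ⟨u, hu, hu'⟩ := h j hj
    exact ⟨u, fun G => hu (G, F), hu'⟩
  · rfl

theorem iso_pair {R : ℕ} (hR : 0 < R) : ∃ K : ℕ, ∀ (W : Type) [Fintype W], K ≤ Fintype.card W →
    ∃ (G H : SimpleGraph W) (k : ℕ), ¬ G.CliqueFree k ∧ (∀ q, k ≤ R * q → H.CliqueFree q) ∧
      IsEmpty (G ≃g H) ∧
      ∀ (D L : Type) (C : Circuit ((W × W) ⊕ (W × W)) D L) (d : D),
        numWirings adjPair C (firstRelabelings W) ^ K < 2 ^ Fintype.card W →
        ∀ F : SimpleGraph W,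
          Nat.card {σ : Equiv.Perm W // C.output (adjPair (G.comap σ, F)) = d} =
            Nat.card {σ : Equiv.Perm W // C.output (adjPair (H.comap σ, F)) = d} := by
  classical
  obtain ⟨K, hK⟩ := exists_system R
  set K₁ := K + 2 with hK₁
  refine ⟨2 * K₁ ^ 2, fun W _ hW => ?_⟩
  set N := Fintype.card W with hN
  set k := N / K₁ with hk
  have hk1 : 2 * K₁ ≤ k := by
    refine (Nat.le_div_iff_mul_le (by omega)).2 ?_
    refine le_trans (le_of_eq ?_) hW
    ring
  have hk2 : K₁ * k ≤ N := Nat.mul_div_le N K₁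
  have hk3 : N < K₁ * (k + 1) := Nat.lt_mul_div_succ N (by omega)
  have hk0 : 0 < k := by omega
  obtain ⟨r, n, t, q, q₁, φ, y, hy, ht, hq₁, hfar, hq₂, hs⟩ := hK W k (by omega)
    (le_trans (Nat.mul_le_mul_right k (by omega)) hk2)
  obtain ⟨b, hb⟩ := exists_far_blocks y hfar
  have hG := not_cliqueFree_zero φ y
  have hH : ∀ q', k ≤ R * q' → (gr φ y b).CliqueFree q' := fun q' hq' =>
    (cliqueFree_of_far φ y b hq₁ hb).mono (hq₂ q' hq')
  refine ⟨gr φ y 0, gr φ y b, k, hG, hH, ⟨fun e => ?_⟩, fun D L C d hC F => ?_⟩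
  · refine hG ?_
    exact SimpleGraph.CliqueFree.comap e.isContained (hH k (Nat.le_mul_of_pos_left k hR))
  · have hC' : (numWirings adjPair C (firstRelabelings W) : ℝ) ^ K < ((N : ℝ) / k) ^ k := by
      set T := numWirings adjPair C (firstRelabelings W) with hT
      have hk' : (0 : ℝ) < k := by exact_mod_cast hk0
      rcases Nat.eq_zero_or_pos T with h0 | h0
      · rcases Nat.eq_zero_or_pos K with hK0 | hK0
        · rw [hK0, pow_zero]
          refine one_lt_pow₀ ?_ (by omega)
          rw [lt_div_iff₀ hk', one_mul]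
          have : k < N := by
            have : 2 * k ≤ K₁ * k := Nat.mul_le_mul_right k (by omega)
            omega
          exact_mod_cast this
        · rw [h0, Nat.cast_zero, zero_pow (by omega)]
          have hN0 : (0 : ℝ) < N := by
            have : 0 < N := by
              have : 2 * k ≤ K₁ * k := Nat.mul_le_mul_right k (by omega)
              omega
            exact_mod_cast this
          positivity
      · have h1 : T ^ K < 2 ^ k := by
          by_contra hcon
          push Not at hcon
          have h2 : 2 ^ (2 * K₁ * k) ≤ T ^ (2 * K₁ ^ 2) := by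
            calc 2 ^ (2 * K₁ * k) = (2 ^ k) ^ (2 * K₁) := by
                  rw [← pow_mul]
                  congr 1
                  ring
              _ ≤ (T ^ K) ^ (2 * K₁) := Nat.pow_le_pow_left hcon _
              _ = T ^ (K * (2 * K₁)) := by rw [← pow_mul]
              _ ≤ T ^ (2 * K₁ ^ 2) := by
                  refine Nat.pow_le_pow_right h0 ?_
                  nlinarith
          have h3 := (Nat.pow_lt_pow_iff_right (by norm_num : 1 < 2)).1 (lt_of_le_of_lt h2 hC)
          have h4 : K₁ ≤ K₁ * k := Nat.le_mul_of_pos_right _ hk0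
          nlinarith
        have h5 : ((2 : ℝ)) ^ k ≤ ((N : ℝ) / k) ^ k := by
          refine pow_le_pow_left₀ (by norm_num) ?_ k
          rw [le_div_iff₀ hk']
          have : 2 * k ≤ N := (Nat.mul_le_mul_right k (by omega : 2 ≤ K₁)).trans hk2
          exact_mod_cast this
        refine lt_of_lt_of_le ?_ h5
        exact_mod_cast h1
    exact count_eq isRight_pair adjPair C φ hy ht (fun b => (gr φ y b, F))
      (fun u b => Prod.ext (gr_comap φ y u b) rfl) adjPair_comap
      (fun β b τ => pair_local φ y F β b τ)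
      (fun w hw => hs _ _ (pow_supp_le φ isRight_pair adjPair C w hw) hC') 0 b d

end Pool.Agent.H429R4.GC
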