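import Pool.Agent.H429R4.GC.Graph

/-!
# Circuits with few wirings cannot approximate the clique number
-/

namespace Pool.Agent.H429R4.GC

open Matrix Finset
open Pool.Agent.H429R4.Sem (Circuit)

variable {W : Type} {k r n : ℕ}

theorem isRight_comap : IsRight fun (π : Equiv.Perm W) (G : SimpleGraph W) => G.comap π where
  one G := by
    ext p q
    rfl
  mul π π' G := by
    ext p q
    rfl

theorem adj_comap (σ : Equiv.Perm W) :
    ∃ s : W × W → W × W, ∀ (G : SimpleGraph W) β, adj (G.comap σ) β = adj G (s β) :=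
  ⟨fun β => (σ β.1, σ β.2), fun G β => by
    unfold adj
    rw [decide_eq_decide]
    rfl⟩

theorem adj_eq_iff {G H : SimpleGraph W} {β : W × W} :
    adj G β = adj H β ↔ (G.Adj β.1 β.2 ↔ H.Adj β.1 β.2) := by
  unfold adj
  rw [decide_eq_decide]

theorem block_eq_zero (φ : Vert k r ↪ W) (z : Pl k r → ZMod 2) {v v' : Vert k r}
    (hne : v.1 ≠ v'.1)
    (h : ∀ G : SimpleGraph W, adj (G.comap (ext φ (tr z))) (φ v, φ v') = adj G (φ v, φ v')) :
    blk z v.1 = 0 ∧ blk z v'.1 = 0 := by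
  have h1 := h (SimpleGraph.fromEdgeSet {s(φ v, φ v')})
  rw [adj_eq_iff] at h1
  simp only [SimpleGraph.comap_adj, SimpleGraph.fromEdgeSet_adj, Set.mem_singleton_iff,
    true_and] at h1
  have hvv : φ v ≠ φ v' := fun e => hne (congrArg Prod.fst (φ.injective e))
  have h2 := (h1.2 hvv).1
  rw [Sym2.eq_iff] at h2
  rcases h2 with ⟨h3, h4⟩ | ⟨h3, h4⟩
  · rw [ext_apply] at h3 h4
    have h5 := congrArg Prod.snd (φ.injective h3)
    have h6 := congrArg Prod.snd (φ.injective h4)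
    rw [tr_apply] at h5 h6
    exact ⟨left_eq_add.1 h5.symm, left_eq_add.1 h6.symm⟩
  · rw [ext_apply] at h3
    exact absurd (congrArg Prod.fst (φ.injective h3)) hne

theorem mulVec_of_blk (y : Fin k × Fin r → Fin 3 → Fin n) (u : Fin 3 × Fin n → ZMod 2) {i : Fin k}
    (h : blk (push y u) i = 0) (l : Fin r) : (mat y *ᵥ u) (i, l) = 0 := by
  rw [mat_mulVec]
  have h1 : ∀ a, u (a, y (i, l) a) = 0 := fun a => congrFun h (l, a)
  simp only [h1, sum_const_zero]

theorem gr_local (φ : Vert k r ↪ W) (y : Fin k × Fin r → Fin 3 → Fin n) (β : W × W)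
    (b τ : Fin k × Fin r → ZMod 2)
    (h : ∀ j, τ j ≠ 0 → ∃ u, (∀ G : SimpleGraph W,
      adj (G.comap (ext φ (tr (push y u)))) β = adj G β) ∧ (mat y *ᵥ u) j ≠ 0) :
    adj (gr φ y (b + τ)) β = adj (gr φ y b) β := by
  obtain ⟨p, q⟩ := β
  rw [adj_eq_iff]
  by_cases hex : ∃ v v' : Vert k r, φ v = p ∧ φ v' = q ∧ v.1 ≠ v'.1
  · obtain ⟨v, v', rfl, rfl, hne⟩ := hex
    have h1 : ∀ l, τ (v.1, l) = 0 := by
      intro l
      by_contra hτ
      obtain ⟨u, hu, hu'⟩ := h _ hτ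
      exact hu' (mulVec_of_blk y u (block_eq_zero φ _ hne hu).1 l)
    have h2 : ∀ l, τ (v'.1, l) = 0 := by
      intro l
      by_contra hτ
      obtain ⟨u, hu, hu'⟩ := h _ hτ
      exact hu' (mulVec_of_blk y u (block_eq_zero φ _ hne hu).2 l)
    have h3 : Sat (b + τ) v ↔ Sat b v := by
      unfold Sat
      refine forall_congr' fun l => ?_
      rw [Pi.add_apply, h1, add_zero]
    have h4 : Sat (b + τ) v' ↔ Sat b v' := by
      unfold Sat
      refine forall_congr' fun l => ?_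
      rw [Pi.add_apply, h2, add_zero]
    unfold gr
    rw [SimpleGraph.map_adj_apply, SimpleGraph.map_adj_apply, gv_adj, gv_adj, h3, h4]
  · constructor
    · intro h1
      rw [gr_adj] at h1
      obtain ⟨v, v', h2, h3, h4⟩ := h1
      exact absurd ⟨v, v', h3, h4, h2.1⟩ hex
    · intro h1
      rw [gr_adj] at h1
      obtain ⟨v, v', h2, h3, h4⟩ := h1
      exact absurd ⟨v, v', h3, h4, h2.1⟩ hex

theorem le_of_pow_le {r s T k K N : ℕ} (hr : 0 < r) (hk : 0 < k) (hN : N < k * 8 ^ (r + 1))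
    (hT : (8 ^ r - 1) ^ s ≤ T) (h : (T : ℝ) ^ K < ((N : ℝ) / k) ^ k) : s * K < 3 * k := by
  have hk' : (0 : ℝ) < k := by exact_mod_cast hk
  have h1 : ((N : ℝ) / k) ^ k ≤ ((8 : ℝ) ^ (r + 1)) ^ k := by
    refine pow_le_pow_left₀ (by positivity) ?_ k
    rw [div_le_iff₀ hk', mul_comm]
    exact_mod_cast hN.le
  have h2 : T ^ K < (8 ^ (r + 1)) ^ k := by
    have := lt_of_lt_of_le h h1
    exact_mod_cast this
  have h3 : 2 ^ (3 * r - 1) ≤ 8 ^ r - 1 := by
    have e1 : (8 : ℕ) ^ r = 2 * 2 ^ (3 * r - 1) := by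
      rw [← pow_succ', show 3 * r - 1 + 1 = 3 * r by omega, pow_mul]
      norm_num
    have h4 : 0 < 2 ^ (3 * r - 1) := by positivity
    omega
  have h4 : (2 ^ (3 * r - 1)) ^ s ≤ T := (Nat.pow_le_pow_left h3 s).trans hT
  have h5 := lt_of_le_of_lt (Nat.pow_le_pow_left h4 K) h2
  have e2 : (8 : ℕ) = 2 ^ 3 := by norm_num
  rw [e2, ← pow_mul, ← pow_mul, ← pow_mul, ← pow_mul,
    Nat.pow_lt_pow_iff_right (by norm_num)] at h5
  have h6 : 2 * r ≤ 3 * r - 1 := by omega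
  have h7 : (2 * r) * (s * K) ≤ (3 * r - 1) * (s * K) := Nat.mul_le_mul_right _ h6
  have h8 : 3 * ((r + 1) * k) ≤ (2 * r) * (3 * k) := by
    have : 3 * (r + 1) ≤ 2 * r * 3 := by omega
    calc 3 * ((r + 1) * k) = 3 * (r + 1) * k := by ring
      _ ≤ 2 * r * 3 * k := Nat.mul_le_mul_right k this
      _ = (2 * r) * (3 * k) := by ring
  exact Nat.lt_of_mul_lt_mul_left (lt_of_le_of_lt h7 (lt_of_lt_of_le h5 h8))

/-- The choice of the parameters. -/
theorem exists_system (R : ℕ) : ∃ K : ℕ, ∀ (W : Type) [Fintype W] (k : ℕ), K ≤ k →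
    K * k ≤ Fintype.card W → ∃ (r n t q q₁ : ℕ) (_ : Vert k r ↪ W)
      (y : Fin k × Fin r → Fin 3 → Fin n), Good t q y ∧ 1 < t ∧ 2 ≤ q₁ ∧ 3 * n + k < r * q₁ ∧
      (∀ q', k ≤ R * q' → q₁ ≤ q') ∧
      ∀ T s : ℕ, (8 ^ r - 1) ^ s ≤ T → (T : ℝ) ^ K < ((Fintype.card W : ℝ) / k) ^ k → s ≤ q := by
  classical
  set R₁ := R + 1 with hR₁
  set R' := 2 * R₁ with hR'
  set Δ := 6 * R' with hΔ
  have hΔ0 : 0 < Δ := by omega
  obtain ⟨c, hc⟩ := exists_nat_ge (C5 Δ * (64 : ℕ) ^ 20)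
  set Q := 12 + c + 64 * 64 ^ 2 * (2 * Δ) ^ 2 with hQ
  have hQ12 : 12 ≤ Q := by omega
  have hQ0 : 0 < Q := by omega
  have hQc : C5 Δ * (64 : ℕ) ^ 20 ≤ (Q : ℝ) ^ 5 := by
    have h1 : (c : ℝ) ≤ Q := by
      have : c ≤ Q := by omega
      exact_mod_cast this
    have h2 : (1 : ℝ) ≤ Q := by exact_mod_cast hQ0
    calc C5 Δ * (64 : ℕ) ^ 20 ≤ c := hc
      _ ≤ Q := h1
      _ = (Q : ℝ) ^ 1 := (pow_one _).symm
      _ ≤ (Q : ℝ) ^ 5 := pow_le_pow_right₀ h2 (by norm_num)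
  have hQ2 : 64 * 64 ^ 2 * (2 * Δ) ^ 2 ≤ Q := by omega
  set P := Δ * Q with hP
  have hP0 : 0 < P := Nat.mul_pos hΔ0 hQ0
  set K := 120 * P + 8 ^ (2 * R' + 1) + 2 * R₁ with hK
  have hK1 : 120 * P ≤ K := by
    rw [hK, add_assoc]
    exact Nat.le_add_right _ _
  have hK2 : 8 ^ (2 * R' + 1) ≤ K := (Nat.le_add_left _ _).trans (Nat.le_add_right _ _)
  have hK3 : 2 * R₁ ≤ K := Nat.le_add_left _ _
  clear_value K
  clear hK
  refine ⟨K, fun W _ k hk hW => ?_⟩
  set N := Fintype.card W with hN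
  have hk0 : 0 < k := by omega
  have hNk : K ≤ N / k := (Nat.le_div_iff_mul_le hk0).2 hW
  have hNk0 : N / k ≠ 0 := by omega
  set r := Nat.log 8 (N / k) with hr
  have hr1 : 2 * R' + 1 ≤ r := by
    refine Nat.le_log_of_pow_le (by norm_num) ?_
    omega
  have hr0 : 0 < r := by omega
  have h8r : 8 ^ r ≤ N / k := Nat.pow_log_le_self 8 hNk0
  have h8r' : N / k < 8 ^ (r + 1) := Nat.lt_pow_succ_log_self (by norm_num) _
  have hcard : k * 8 ^ r ≤ N := by
    have := (Nat.le_div_iff_mul_le hk0).1 h8r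
    rwa [mul_comm]
  have hN' : N < k * 8 ^ (r + 1) := by
    have := (Nat.div_lt_iff_lt_mul hk0).1 h8r'
    rwa [mul_comm]
  have hemb : Nonempty (Vert k r ↪ W) := by
    refine Function.Embedding.nonempty_of_card_le ?_
    rw [Fintype.card_prod, Fintype.card_fun, ZMod.card, Fintype.card_prod, Fintype.card_fin,
      Fintype.card_fin, Fintype.card_fin]
    refine le_trans (le_of_eq ?_) hcard
    have : (8 : ℕ) = 2 ^ 3 := by norm_num
    rw [this, ← pow_mul, mul_comm r 3]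
  obtain ⟨φ⟩ := hemb
  set M := k * r with hM
  have hkM : k ≤ M := Nat.le_mul_of_pos_right k hr0
  set n := M / Δ with hn
  have hn1 : Δ * n ≤ M := Nat.mul_div_le M Δ
  have hn2 : M < Δ * (n + 1) := Nat.lt_mul_div_succ M hΔ0
  have hn3 : 120 * Q ≤ n := by
    refine (Nat.le_div_iff_mul_le hΔ0).2 ?_
    have : 120 * Q * Δ = 120 * P := by
      rw [hP]
      ring
    omega
  have hn0 : 0 < n := by omega
  have hMn : M ≤ 2 * Δ * n := by
    have : Δ ≤ Δ * n := Nat.le_mul_of_pos_right Δ hn0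
    have h2 : Δ * (n + 1) = Δ * n + Δ := by ring
    have h3 : 2 * Δ * n = 2 * (Δ * n) := by ring
    omega
  set t := n / Q with ht
  have ht1 : Q * t ≤ n := Nat.mul_div_le n Q
  have ht2 : n < Q * (t + 1) := Nat.lt_mul_div_succ n hQ0
  have ht3 : 2 ≤ t := by
    refine (Nat.le_div_iff_mul_le hQ0).2 ?_
    omega
  have ht0 : 0 < t := by omega
  have hnt : n ≤ 2 * Q * t := by
    have : Q ≤ Q * t := Nat.le_mul_of_pos_right Q ht0
    have h2 : Q * (t + 1) = Q * t + Q := by ring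
    have h3 : 2 * Q * t = 2 * (Q * t) := by ring
    omega
  set q := t / (10 * r) with hq
  have hq1 : 10 * (r * q) ≤ t := by
    rw [← mul_assoc]
    exact Nat.mul_div_le t (10 * r)
  obtain ⟨y, hy⟩ := exists_good (k := k) (r := r) (n := n) (Δ := Δ) (t := t) (q := q) (Q := Q)
    hMn hΔ0 hr0 hn0 ht0 hQ12 ht1 hnt hq1 hQc hQ2
  set q₁ := k / R₁ with hq₁
  have hq₁1 : 2 ≤ q₁ := by
    refine (Nat.le_div_iff_mul_le (by omega)).2 ?_
    omega
  have hq₁2 : k < R₁ * (q₁ + 1) := Nat.lt_mul_div_succ k (by omega)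
  have hq₁3 : k ≤ R' * q₁ := by
    have h1 : R₁ * (q₁ + 1) = R₁ * q₁ + R₁ := by ring
    have h2 : R₁ ≤ R₁ * q₁ := Nat.le_mul_of_pos_right R₁ (by omega)
    have h3 : R' * q₁ = 2 * (R₁ * q₁) := by
      rw [hR']
      ring
    omega
  refine ⟨r, n, t, q, q₁, φ, y, hy, by omega, hq₁1, ?_, ?_, ?_⟩
  · have h1 : 6 * n ≤ r * q₁ := by
      have h2 : R' * (6 * n) ≤ R' * (r * q₁) := by
        calc R' * (6 * n) = Δ * n := by
              rw [hΔ]
              ring
          _ ≤ k * r := hn1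
          _ ≤ R' * q₁ * r := Nat.mul_le_mul_right r hq₁3
          _ = R' * (r * q₁) := by ring
      exact Nat.le_of_mul_le_mul_left h2 (by omega)
    have h3 : 2 * k + q₁ ≤ r * q₁ := by
      calc 2 * k + q₁ ≤ 2 * (R' * q₁) + q₁ := by omega
        _ = (2 * R' + 1) * q₁ := by ring
        _ ≤ r * q₁ := Nat.mul_le_mul_right q₁ hr1
    omega
  · intro q' hq'
    refine Nat.div_le_of_le_mul ?_
    have : R * q' ≤ R₁ * q' := Nat.mul_le_mul_right q' (by omega)
    omega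
  · intro T s hT h
    have h1 := le_of_pow_le hr0 hk0 hN' hT h
    rw [hq]
    refine (Nat.le_div_iff_mul_le (by omega)).2 ?_
    have h2 : s * (120 * P) ≤ 3 * k := by
      have : s * (120 * P) ≤ s * K := Nat.mul_le_mul_left s (by omega)
      omega
    have h3 : (12 * P) * (s * (10 * r)) ≤ (12 * P) * t := by
      calc (12 * P) * (s * (10 * r)) = s * (120 * P) * r := by ring
        _ ≤ 3 * k * r := Nat.mul_le_mul_right r h2
        _ = 3 * M := by
            rw [hM]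
            ring
        _ ≤ 3 * (2 * Δ * n) := by omega
        _ ≤ 3 * (2 * Δ * (2 * Q * t)) := by
            refine Nat.mul_le_mul_left 3 (Nat.mul_le_mul_left _ hnt)
        _ = (12 * P) * t := by
            rw [hP]
            ring
    exact Nat.le_of_mul_le_mul_left h3 (by positivity)

/-- Circuits with few wirings cannot tell graphs with large cliques from graphs that have only
much smaller cliques. -/
theorem clique_pair (R : ℕ) : ∃ K : ℕ, ∀ (W : Type) [Fintype W] (k : ℕ), K ≤ k →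
    K * k ≤ Fintype.card W →
    ∃ G H : SimpleGraph W, ¬ G.CliqueFree k ∧ (∀ q, k ≤ R * q → H.CliqueFree q) ∧
      ∀ (D L : Type) (C : Circuit (W × W) D L) (d : D),
        (numWirings adj C (relabelings W) : ℝ) ^ K < ((Fintype.card W : ℝ) / k) ^ k →
        Nat.card {σ : Equiv.Perm W // C.output (adj (G.comap σ)) = d} =
          Nat.card {σ : Equiv.Perm W // C.output (adj (H.comap σ)) = d} := by
  classical
  obtain ⟨K, hK⟩ := exists_system R
  refine ⟨K, fun W _ k hk hW => ?_⟩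
  obtain ⟨r, n, t, q, q₁, φ, y, hy, ht, hq₁, hfar, hq₂, hs⟩ := hK W k hk hW
  obtain ⟨b, hb⟩ := exists_far_blocks y hfar
  refine ⟨gr φ y 0, gr φ y b, not_cliqueFree_zero φ y, fun q' hq' =>
    (cliqueFree_of_far φ y b hq₁ hb).mono (hq₂ q' hq'), fun D L C d hC => ?_⟩
  exact count_eq isRight_comap adj C φ hy ht (gr φ y) (fun u b => gr_comap φ y u b)
    adj_comap (fun β b τ => gr_local φ y β b τ)
    (fun w hw => hs _ _ (pow_supp_le φ isRight_comap adj C w hw) hC) 0 b d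

end Pool.Agent.H429R4.GC
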